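import Pool.Agent.H43.PL.M08

/-!
# MDX TopX: `top` of `H53/MID/Top.lean` with the explicit constant `48 D^6`

The proof is the proof of `Pool.Agent.H53.MID.top` (copy the file `Pool/Agent/H53/MID/Top.lean` with its private lemmas renamed `TopX_..`; there the constant is introduced by
`refine ⟨48 * D ^ 6, ..⟩`).
-/

set_option autoImplicit false

namespace Pool.Agent.H74.MDX

open Finset
open Pool.Agent.H53.MID (nz Rel Desc)
open Pool.Agent.H53.MID (nz_sub nz_exists nz_frac_ge nz_le_abs nz_add_int nz_eq_abs nz_add nz_neg)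

private theorem TopX_gap (A : Finset ℕ) (hA : 2 ≤ A.card) : ∃ u ∈ A, ∃ v ∈ A, ∃ x ∈ A, ∃ y ∈ A,
    u ≤ v ∧ x < y ∧ (y - x) * (A.card - 1) ≤ v - u ∧ A.card ≤ v - u + 1 := by
  have hne : A.Nonempty := Finset.card_pos.mp (by omega)
  set u := A.min' hne with hu
  set v := A.max' hne with hv
  have hu1 : ∀ z ∈ A, u ≤ z := fun z hz => A.min'_le z hz
  have hv1 : ∀ z ∈ A, z ≤ v := fun z hz => A.le_max' z hz
  have huA : u ∈ A := A.min'_mem hne
  have hvA : v ∈ A := A.max'_mem hne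
  have huv : u ≤ v := hu1 v hvA
  have hcard : A.card ≤ v - u + 1 := by
    have hsub : A ⊆ Finset.Icc u v := fun z hz => Finset.mem_Icc.mpr ⟨hu1 z hz, hv1 z hz⟩
    have := Finset.card_le_card hsub
    rw [Nat.card_Icc] at this
    omega
  set L := (v - u) / (A.card - 1) + 1 with hL
  have hLpos : 0 < L := Nat.succ_pos _
  have hmaps : Set.MapsTo (fun z : ℕ => (z - u) / L) (A : Set ℕ) (Finset.range (A.card - 1) : Set ℕ) := by
    intro z hz
    have hz' : z ∈ A := hz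
    simp only [Finset.coe_range, Set.mem_Iio]
    rw [Nat.div_lt_iff_lt_mul hLpos]
    have h1 : z - u ≤ v - u := Nat.sub_le_sub_right (hv1 z hz') u
    have h2 : v - u < (A.card - 1) * L := Nat.lt_mul_div_succ _ (by omega)
    exact lt_of_le_of_lt h1 h2
  obtain ⟨x, hx, y, hy, hxy, hf⟩ := Finset.exists_ne_map_eq_of_card_lt_of_maps_to
    (by rw [Finset.card_range]; omega) hmaps
  have key : ∀ x ∈ A, ∀ y ∈ A, x < y → (x - u) / L = (y - u) / L →
      (y - x) * (A.card - 1) ≤ v - u := by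
    intro x hx y hy hxy hf
    have h1 : y - x < L := by
      have e1 := Nat.div_add_mod (x - u) L
      have e2 := Nat.div_add_mod (y - u) L
      have e3 := Nat.mod_lt (y - u) hLpos
      rw [hf] at e1
      have e4 := hu1 x hx
      have e5 := hu1 y hy
      omega
    have h2 : y - x ≤ (v - u) / (A.card - 1) := by omega
    exact (Nat.mul_le_mul_right _ h2).trans (Nat.div_mul_le_self _ _)
  rcases lt_or_gt_of_ne hxy with h | h
  · exact ⟨u, huA, v, hvA, x, hx, y, hy, huv, h, key x hx y hy h hf, hcard⟩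
  · exact ⟨u, huA, v, hvA, y, hy, x, hx, huv, h, key y hy x hx h hf.symm, hcard⟩

/-- the elements of a set of naturals with bounded differences -/
private theorem TopX_card (A : Finset ℕ) (X : ℝ) (hX : 0 ≤ X)
    (h : ∀ x ∈ A, ∀ y ∈ A, (y : ℝ) - x ≤ X) : (A.card : ℝ) ≤ X + 1 := by
  rcases A.eq_empty_or_nonempty with rfl | hne
  · simp only [Finset.card_empty, Nat.cast_zero]
    linarith
  · have hsub : A ⊆ Finset.Icc (A.min' hne) (A.max' hne) := fun z hz =>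
      Finset.mem_Icc.mpr ⟨A.min'_le z hz, A.le_max' z hz⟩
    have h1 := Finset.card_le_card hsub
    rw [Nat.card_Icc] at h1
    have h2 := h _ (A.min'_mem hne) _ (A.max'_mem hne)
    have h3 : A.min' hne ≤ A.max' hne := A.min'_le _ (A.max'_mem hne)
    have h4 : A.card + A.min' hne ≤ A.max' hne + 1 := by omega
    have h5 : (A.card : ℝ) + (A.min' hne : ℕ) ≤ (A.max' hne : ℕ) + 1 := by exact_mod_cast h4
    linarith only [hne, h2, h5]

/-- the fibres of the second coordinate -/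
private def TopX_fib (S : Finset (ℕ × ℕ)) (i : ℕ) : Finset ℕ :=
  (S.filter fun t => t.2 = i).image Prod.fst

private theorem TopX_mem_fib {S : Finset (ℕ × ℕ)} {i x : ℕ} : x ∈ TopX_fib S i ↔ (x, i) ∈ S := by
  unfold TopX_fib
  simp only [Finset.mem_image, Finset.mem_filter]
  constructor
  · rintro ⟨⟨a, b⟩, ⟨h1, h2⟩, h3⟩
    simp only at h2 h3
    rw [← h3, ← h2]
    exact h1
  · intro h
    exact ⟨(x, i), ⟨h, rfl⟩, rfl⟩

private theorem TopX_card_fib (S : Finset (ℕ × ℕ)) (i : ℕ) :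
    (TopX_fib S i).card = (S.filter fun t => t.2 = i).card := by
  unfold TopX_fib
  apply Finset.card_image_of_injOn
  rintro ⟨a, b⟩ h1 ⟨c, e⟩ h2 h3
  simp only [Finset.coe_filter, Set.mem_ofPred_eq] at h1 h2
  simp only at h3
  rw [h3, h1.2, h2.2]

private theorem TopX_sum (S : Finset (ℕ × ℕ)) (F : Finset ℕ) (h : ∀ t ∈ S, t.2 ∈ F) :
    S.card = ∑ i ∈ F, (TopX_fib S i).card := by
  rw [Finset.card_eq_sum_card_fiberwise (f := Prod.snd) (t := F) h]
  exact Finset.sum_congr rfl fun i _ => (TopX_card_fib S i).symm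

private theorem TopX_pig (s t : Finset ℕ) (f : ℕ → ℕ) (hf : ∀ x ∈ s, f x ∈ t) (ht : t.Nonempty) :
    ∃ y ∈ t, s.card ≤ t.card * (s.filter fun x => f x = y).card := by
  by_contra hcon
  push Not at hcon
  have h1 : ∑ y ∈ t, t.card * (s.filter fun x => f x = y).card < ∑ _y ∈ t, s.card :=
    Finset.sum_lt_sum_of_nonempty ht hcon
  rw [← Finset.mul_sum, ← Finset.card_eq_sum_card_fiberwise hf, Finset.sum_const, smul_eq_mul] at h1
  exact lt_irrefl _ h1

theorem topx (D : ℝ) (hD : 1 ≤ D) : ∀ (n P J K : ℕ) (ρ η w : ℝ) (F0 : Finset ℕ) (α : ℕ → ℝ)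
    (S : Finset (ℕ × ℕ)), 1 ≤ n → 1 ≤ P → 0 < ρ → ρ ≤ 1 → 0 ≤ η → (n : ℝ) * P ≤ (P : ℝ) ^ J → (P : ℝ) ^ J ≤ n * (P : ℝ) ^ 2 →
    (∀ i ∈ F0, (n : ℝ) / D ≤ i ∧ (i : ℝ) ≤ D * n) → (n : ℝ) / D ≤ K → (K : ℝ) ≤ D * n → 48 * D ^ 6 ≤ ρ * P →
    48 * D ^ 6 * η * (P : ℝ) ^ 2 ≤ ρ → Desc P J D (D * η) F0 α K w S → ρ * (P : ℝ) ^ J ≤ S.card →
    ∃ (d : ℕ) (b : ℕ) (T : ℝ) (F1 : Finset ℕ), 1 ≤ d ∧ d * ρ ≤ 48 * D ^ 6 ∧ |T| * ρ ≤ 48 * D ^ 6 * η * (n : ℝ) ^ 2 ∧
      F1 ⊆ F0 ∧ ρ ^ 2 * n ≤ 48 * D ^ 6 * F1.card ∧ ∀ i ∈ F1, nz (α i - b / d - T / i) * ρ ≤ 48 * D ^ 6 * η := by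
  have hD0 : 0 < D := by linarith
  have hp1 : ∀ k : ℕ, 1 ≤ D ^ k := fun k => one_le_pow₀ hD
  intro n P J K ρ η w F0 α S hn hP hρ hρ1 hη hJ1 hJ2 hF0 hK1 hK2 hPρ hηρ hS hcard
  have hn1 : (1 : ℝ) ≤ n := by exact_mod_cast hn
  have hn0 : (0 : ℝ) < n := by linarith only [hn1]
  have hP1 : (1 : ℝ) ≤ P := by exact_mod_cast hP
  have hP0 : (0 : ℝ) < P := by linarith
  set Q : ℝ := (P : ℝ) ^ J with hQ
  have hQ0 : 0 < Q := by positivity
  set X : ℝ := 2 * D ^ 2 * Q / n with hX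
  have hX0 : 0 < X := by positivity
  have hXn : X * n = 2 * D ^ 2 * Q := by rw [hX]; field_simp
  have hX2 : 2 ≤ X := by
    rw [hX, le_div_iff₀ hn0]
    have h1 : (n : ℝ) ≤ n * P := by nlinarith only [hP1]
    have h2 : 1 * Q ≤ D ^ 2 * Q := by nlinarith only [hQ0, hp1, hp1 2]
    linarith
  have hi0 : ∀ i ∈ F0, (0 : ℝ) < i := fun i hi => lt_of_lt_of_le (by positivity) (hF0 i hi).1
  have hiD : ∀ i ∈ F0, (n : ℝ) ≤ D * i := by
    intro i hi
    have := (hF0 i hi).1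
    rw [div_le_iff₀ hD0] at this
    linarith
  -- the fibres are short
  have hfib : ∀ i ∈ F0, ∀ x ∈ TopX_fib S i, ∀ y ∈ TopX_fib S i, (y : ℝ) - x ≤ X := by
    intro i hi x hx y hy
    rw [TopX_mem_fib] at hx hy
    have h1 := hS.pos _ hx
    have h2 := hS.pos _ hy
    simp only [abs_le] at h1 h2
    rw [← hQ] at h1 h2
    have h3 : (i : ℝ) * ((y : ℝ) - x) ≤ 2 * (D * Q) := by linarith [h1.1, h2.2]
    rcases le_or_gt ((y : ℝ) - x) 0 with h4 | h4
    · linarith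
    · have h5 : (n : ℝ) * ((y : ℝ) - x) ≤ D * (i * ((y : ℝ) - x)) := by
        rw [← mul_assoc]
        exact mul_le_mul_of_nonneg_right (hiD i hi) h4.le
      have h6 : (n : ℝ) * ((y : ℝ) - x) ≤ n * X := by
        have h7 : D * ((i : ℝ) * ((y : ℝ) - x)) ≤ D * (2 * (D * Q)) :=
          mul_le_mul_of_nonneg_left h3 hD0.le
        calc (n : ℝ) * ((y : ℝ) - x) ≤ D * (2 * (D * Q)) := h5.trans h7
          _ = n * X := by rw [mul_comm (n : ℝ) X, hXn]; ring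
      exact le_of_mul_le_mul_left h6 hn0
  have hScard0 : (0 : ℝ) < S.card := lt_of_lt_of_le (by positivity) hcard
  have hSne : S.Nonempty := by
    rw [← Finset.card_pos]
    exact_mod_cast hScard0
  have hF0ne : F0.Nonempty := by
    obtain ⟨t, ht⟩ := hSne
    exact ⟨_, hS.mem t ht⟩
  have hF0card : (F0.card : ℝ) ≤ D * n := by
    have hsub : F0 ⊆ Finset.Icc 1 ⌊D * n⌋₊ := by
      intro i hi
      rw [Finset.mem_Icc]
      refine ⟨?_, Nat.le_floor (hF0 i hi).2⟩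
      have := hi0 i hi
      exact_mod_cast this
    have h1 := Finset.card_le_card hsub
    rw [Nat.card_Icc, Nat.add_sub_cancel] at h1
    exact (Nat.cast_le.mpr h1).trans (Nat.floor_le (by positivity))
  -- (1) a large fibre
  obtain ⟨i0, hi0F, hbig⟩ : ∃ i ∈ F0, ρ * Q ≤ D * n * (TopX_fib S i).card := by
    by_contra hcon
    push Not at hcon
    have h1 : ∑ i ∈ F0, D * n * ((TopX_fib S i).card : ℝ) < ∑ _i ∈ F0, ρ * Q :=
      Finset.sum_lt_sum_of_nonempty hF0ne hcon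
    have h2 : (S.card : ℝ) = ∑ i ∈ F0, ((TopX_fib S i).card : ℝ) := by
      rw [TopX_sum S F0 hS.mem]
      push_cast
      rfl
    rw [← Finset.mul_sum, ← h2, Finset.sum_const, nsmul_eq_mul] at h1
    have h3 : (F0.card : ℝ) * (ρ * Q) ≤ D * n * (ρ * Q) :=
      mul_le_mul_of_nonneg_right hF0card (by positivity)
    have h4 : D * n * (ρ * Q) ≤ D * n * S.card := mul_le_mul_of_nonneg_left hcard (by positivity)
    linarith only [h1, h3, h4]
  set A := TopX_fib S i0 with hA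
  set m : ℝ := (A.card : ℝ) with hm
  have hm48 : 48 ≤ m := by
    have h1 : ρ * (n * P) ≤ ρ * Q := mul_le_mul_of_nonneg_left hJ1 hρ.le
    have h2 : n * (ρ * P) ≤ n * (D * m) := by nlinarith only [hbig, h1]
    have h3 : ρ * P ≤ D * m := le_of_mul_le_mul_left h2 hn0
    have h4 : D * 48 ≤ D * m := by
      have h5 : D ≤ D ^ 6 := le_self_pow₀ hD (by norm_num)
      linarith
    exact le_of_mul_le_mul_left h4 hD0
  have hA2 : 2 ≤ A.card := by
    have : (2 : ℝ) ≤ A.card := by linarith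
    exact_mod_cast this
  obtain ⟨u, hu, v, hv, x, hx, y, hy, huv, hxy, hgap, hcm⟩ := TopX_gap A hA2
  set d : ℕ := y - x with hd
  have hd1 : 1 ≤ d := by omega
  have hd1r : (1 : ℝ) ≤ d := by exact_mod_cast hd1
  have hd0r : (0 : ℝ) < d := by linarith only [hd1r]
  have hdr : (d : ℝ) = y - x := by rw [hd, Nat.cast_sub hxy.le]
  set Δ : ℕ := v - u with hΔ
  have hΔr : (Δ : ℝ) = v - u := by rw [hΔ, Nat.cast_sub huv]
  have hΔX : (Δ : ℝ) ≤ X := by rw [hΔr]; exact hfib i0 hi0F u hu v hv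
  have hgapr : (d : ℝ) * (m - 1) ≤ Δ := by
    have h1 : ((d * (A.card - 1) : ℕ) : ℝ) ≤ (Δ : ℕ) := Nat.cast_le.mpr hgap
    rw [Nat.cast_mul, Nat.cast_sub (show 1 ≤ A.card by omega), Nat.cast_one] at h1
    exact h1
  have hcmr : m ≤ Δ + 1 := by
    have : (A.card : ℝ) ≤ ((Δ + 1 : ℕ) : ℝ) := Nat.cast_le.mpr hcm
    rw [Nat.cast_add, Nat.cast_one] at this
    exact this
  have hdm : (d : ℝ) * m ≤ 2 * X := by nlinarith only [hm48, hΔX, hgapr, hcmr]
  have hdρ : (d : ℝ) * ρ ≤ 4 * D ^ 3 := by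
    have h1 : (d : ℝ) * (ρ * Q) ≤ d * (D * n * m) := mul_le_mul_of_nonneg_left hbig hd0r.le
    have h2 : (d : ℝ) * (D * n * m) ≤ (D * n) * (2 * X) := by
      have : (d : ℝ) * (D * n * m) = (D * n) * (d * m) := by ring
      rw [this]
      exact mul_le_mul_of_nonneg_left hdm (by positivity)
    have h3 : (D * n) * (2 * X) = (4 * D ^ 3) * Q := by
      calc (D * n) * (2 * X) = 2 * D * (X * n) := by ring
        _ = (4 * D ^ 3) * Q := by rw [hXn]; ring
    have h4 : (d * ρ) * Q ≤ (4 * D ^ 3) * Q := by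
      calc (d * ρ) * Q = d * (ρ * Q) := by ring
        _ ≤ _ := h1.trans (h2.trans h3.le)
    exact le_of_mul_le_mul_right h4 hQ0
  have hnzd : ∀ x ∈ A, ∀ y ∈ A, nz (((y : ℝ) - x) * w) ≤ 2 * (D * η) := by
    intro x hx y hy
    rw [hA, TopX_mem_fib] at hx hy
    have h1 := hS.freq _ hx
    have h2 := hS.freq _ hy
    simp only at h1 h2
    have h3 : ((y : ℝ) - x) * w = (y * w - α i0) - (x * w - α i0) := by ring
    rw [h3]
    exact (nz_sub _ _).trans (by linarith only [h1, h2])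
  obtain ⟨a0, ha0⟩ := nz_exists ((d : ℝ) * w)
  have he : |(d : ℝ) * w - a0| ≤ 2 * (D * η) := by
    rw [ha0, hdr]
    exact hnzd x hx y hy
  set θ : ℝ := ((d : ℝ) * w - a0) / d with hθ
  have hw : w = a0 / d + θ := by
    rw [hθ]
    field_simp
    ring
  have hθ1 : |θ| ≤ 2 * (D * η) := by
    rw [hθ, abs_div, abs_of_pos hd0r, div_le_iff₀ hd0r]
    have : 2 * (D * η) * 1 ≤ 2 * (D * η) * d := mul_le_mul_of_nonneg_left hd1r (by positivity)
    linarith only [he, this]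
  have hΔ0 : (0 : ℝ) ≤ Δ := Nat.cast_nonneg _
  have hτX : 2 * (D * η) * X ≤ 4 * D ^ 3 * (η * (P : ℝ) ^ 2) := by
    have h1 : n * X ≤ n * (2 * D ^ 2 * (P : ℝ) ^ 2) := by
      rw [mul_comm (n : ℝ) X, hXn]
      have := mul_le_mul_of_nonneg_left hJ2 (show (0 : ℝ) ≤ 2 * D ^ 2 by positivity)
      linarith only [this]
    have h2 : X ≤ 2 * D ^ 2 * (P : ℝ) ^ 2 := le_of_mul_le_mul_left h1 hn0
    have h3 := mul_le_mul_of_nonneg_left h2 (show (0 : ℝ) ≤ 2 * (D * η) by positivity)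
    linarith only [h3]
  have hΔθ : |(Δ : ℝ) * θ| ≤ 4 * D ^ 3 * (η * (P : ℝ) ^ 2) := by
    rw [abs_mul, abs_of_nonneg hΔ0]
    calc (Δ : ℝ) * |θ| ≤ X * (2 * (D * η)) := by
          apply mul_le_mul hΔX hθ1 (abs_nonneg _) hX0.le
      _ = 2 * (D * η) * X := by ring
      _ ≤ _ := hτX
  set y2 : ℝ := η * (P : ℝ) ^ 2 with hy2
  have hy20 : 0 ≤ y2 := by positivity
  have hηy : η ≤ y2 := by
    have : 1 ≤ (P : ℝ) ^ 2 := one_le_pow₀ hP1
    nlinarith only [hη, this]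
  have hηρ' : 48 * D ^ 6 * y2 ≤ ρ := by rw [hy2]; linarith only [hηρ]
  have hΔw : nz ((Δ : ℝ) * w) ≤ 2 * (D * η) := by
    rw [hΔr]
    exact hnzd u hu v hv
  have hΔw2 : (Δ : ℝ) * w = ((Δ * a0 : ℤ) : ℝ) / d + Δ * θ := by
    push_cast
    nth_rewrite 1 [hw]
    ring
  have hdvd : (d : ℤ) ∣ (Δ * a0 : ℤ) := by
    by_contra hnd
    have h1 := nz_frac_ge (Δ * a0 : ℤ) d (by omega) hnd
    have h2 : nz (((Δ * a0 : ℤ) : ℝ) / d) ≤ 2 * (D * η) + 4 * D ^ 3 * y2 := by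
      have h3 : ((Δ * a0 : ℤ) : ℝ) / d = (Δ : ℝ) * w - Δ * θ := by rw [hΔw2]; ring
      rw [h3]
      exact (nz_sub _ _).trans (add_le_add hΔw ((nz_le_abs _).trans hΔθ))
    have h4 : 1 / (d : ℝ) ≤ 6 * D ^ 3 * y2 := by
      have h5 : D * η ≤ D ^ 3 * y2 := by
        apply mul_le_mul (le_self_pow₀ hD (by norm_num)) hηy hη (by positivity)
      linarith only [h1, h2, h5]
    have h6 : ρ ≤ 4 * D ^ 3 * (1 / (d : ℝ)) := by
      rw [mul_one_div, le_div_iff₀ hd0r]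
      linarith only [hdρ]
    have h7 : 4 * D ^ 3 * (1 / (d : ℝ)) ≤ 4 * D ^ 3 * (6 * D ^ 3 * y2) :=
      mul_le_mul_of_nonneg_left h4 (by positivity)
    have h8 : 4 * D ^ 3 * (6 * D ^ 3 * y2) = (48 * D ^ 6 * y2) / 2 := by ring
    linarith only [hρ, hηρ, h6, h7]
  obtain ⟨q, hq⟩ := hdvd
  have hΔθ2 : |(Δ : ℝ) * θ| ≤ 2 * (D * η) := by
    have h1 : (Δ : ℝ) * w = Δ * θ + (q : ℤ) := by
      rw [hΔw2, hq]
      push_cast
      field_simp
      ring
    rw [h1, nz_add_int] at hΔw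
    rw [← nz_eq_abs]
    · exact hΔw
    · have h2 : D ^ 3 * y2 ≤ D ^ 6 * y2 :=
        mul_le_mul_of_nonneg_right (pow_le_pow_right₀ hD (by norm_num)) hy20
      linarith only [hρ1, hηρ, hΔθ, h2]
  have hθm : |θ| * m ≤ 4 * (D * η) := by
    rw [abs_mul, abs_of_nonneg hΔ0] at hΔθ2
    have h1 : m ≤ 2 * Δ := by linarith only [hm48, hcmr]
    have h2 : |θ| * m ≤ |θ| * (2 * Δ) := mul_le_mul_of_nonneg_left h1 (abs_nonneg _)
    linarith only [hΔθ2, h2]
  have hθQ : |θ| * (ρ * Q) ≤ 4 * D ^ 2 * η * n := by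
    have h1 : |θ| * (ρ * Q) ≤ |θ| * (D * n * m) := mul_le_mul_of_nonneg_left hbig (abs_nonneg _)
    have h2 : |θ| * (D * n * m) = (D * n) * (|θ| * m) := by ring
    have h3 : (D * n) * (|θ| * m) ≤ (D * n) * (4 * (D * η)) :=
      mul_le_mul_of_nonneg_left hθm (by positivity)
    calc |θ| * (ρ * Q) ≤ (D * n) * (4 * (D * η)) := h1.trans (h2.le.trans h3)
      _ = 4 * D ^ 2 * η * n := by ring
  -- (4) the indices with a descendant
  set Fs := S.image Prod.snd with hFs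
  have hFsF : Fs ⊆ F0 := by
    intro i hi
    rw [hFs, Finset.mem_image] at hi
    obtain ⟨t, ht, rfl⟩ := hi
    exact hS.mem t ht
  have hFsc : ρ * n ≤ 4 * D ^ 2 * Fs.card := by
    have h1 : (S.card : ℝ) = ∑ i ∈ Fs, ((TopX_fib S i).card : ℝ) := by
      rw [TopX_sum S Fs (fun t ht => Finset.mem_image_of_mem _ ht)]
      push_cast
      rfl
    have h2 : ∑ i ∈ Fs, ((TopX_fib S i).card : ℝ) ≤ ∑ _i ∈ Fs, 2 * X := by
      apply Finset.sum_le_sum
      intro i hi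
      have := TopX_card (TopX_fib S i) X hX0.le (hfib i (hFsF hi))
      linarith only [hm48, hΔX, hcmr, this]
    rw [Finset.sum_const, nsmul_eq_mul] at h2
    have h3 : ρ * Q ≤ Fs.card * (2 * X) := hcard.trans (h1.le.trans h2)
    have h4 : (ρ * n) * Q ≤ (4 * D ^ 2 * Fs.card) * Q := by
      calc (ρ * n) * Q = n * (ρ * Q) := by ring
        _ ≤ n * (Fs.card * (2 * X)) := mul_le_mul_of_nonneg_left h3 hn0.le
        _ = 2 * Fs.card * (X * n) := by ring
        _ = (4 * D ^ 2 * Fs.card) * Q := by rw [hXn]; ring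
    exact le_of_mul_le_mul_right h4 hQ0
  have hex : ∀ i ∈ Fs, ∃ x : ℕ, (x, i) ∈ S := by
    intro i hi
    rw [hFs, Finset.mem_image] at hi
    obtain ⟨⟨x, i'⟩, ht, rfl⟩ := hi
    exact ⟨x, ht⟩
  choose! g hg using hex
  set f : ℕ → ℕ := fun i => (((g i : ℤ) * a0) % (d : ℤ)).toNat with hf
  have hdz : (0 : ℤ) < d := by exact_mod_cast hd1
  have hmaps : ∀ i ∈ Fs, f i ∈ Finset.range d := by
    intro i _
    rw [Finset.mem_range, hf]
    have h1 := Int.emod_nonneg ((g i : ℤ) * a0) hdz.ne'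
    have h2 := Int.emod_lt_of_pos ((g i : ℤ) * a0) hdz
    simp only
    omega
  obtain ⟨b, -, hb⟩ := TopX_pig Fs (Finset.range d) f hmaps ⟨0, Finset.mem_range.mpr hd1⟩
  rw [Finset.card_range] at hb
  have hbr : (Fs.card : ℝ) ≤ d * (Fs.filter fun i => f i = b).card := by exact_mod_cast hb
  refine ⟨d, b, θ * K * Q, Fs.filter fun i => f i = b, hd1, ?_, ?_, ?_, ?_, ?_⟩
  · have : D ^ 3 ≤ D ^ 6 := pow_le_pow_right₀ hD (by norm_num)
    linarith only [hdρ, this, hp1, hp1 6]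
  · rw [abs_mul, abs_mul, abs_of_nonneg (Nat.cast_nonneg K : (0 : ℝ) ≤ K), abs_of_pos hQ0]
    have h1 : |θ| * K * Q * ρ = K * (|θ| * (ρ * Q)) := by ring
    rw [h1]
    have h2 : (K : ℝ) * (|θ| * (ρ * Q)) ≤ (D * n) * (4 * D ^ 2 * η * n) :=
      mul_le_mul hK2 hθQ (by positivity) (by positivity)
    have h3 : (D * n) * (4 * D ^ 2 * η * n) = 4 * D ^ 3 * (η * n ^ 2) := by ring
    have h4 : D ^ 3 * (η * (n : ℝ) ^ 2) ≤ D ^ 6 * (η * (n : ℝ) ^ 2) :=
      mul_le_mul_of_nonneg_right (pow_le_pow_right₀ hD (by norm_num)) (by positivity)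
    have h5 : 0 ≤ D ^ 6 * (η * (n : ℝ) ^ 2) := by positivity
    calc (K : ℝ) * (|θ| * (ρ * Q)) ≤ 4 * D ^ 3 * (η * n ^ 2) := h2.trans h3.le
      _ ≤ 48 * D ^ 6 * η * (n : ℝ) ^ 2 := by linarith only [h4, h5]
  · exact (Finset.filter_subset _ _).trans hFsF
  · have h1 : ρ * (ρ * n) ≤ ρ * (4 * D ^ 2 * Fs.card) := mul_le_mul_of_nonneg_left hFsc hρ.le
    set c : ℝ := ((Fs.filter fun i => f i = b).card : ℝ) with hc
    have hc0 : 0 ≤ c := Nat.cast_nonneg _
    have h2 : ρ * (4 * D ^ 2 * Fs.card) ≤ ρ * (4 * D ^ 2 * (d * c)) := by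
      apply mul_le_mul_of_nonneg_left _ hρ.le
      exact mul_le_mul_of_nonneg_left hbr (by positivity)
    have h3 : ρ * (4 * D ^ 2 * (d * c)) = (4 * D ^ 2 * c) * (d * ρ) := by ring
    have h4 : (4 * D ^ 2 * c) * (d * ρ) ≤ (4 * D ^ 2 * c) * (4 * D ^ 3) :=
      mul_le_mul_of_nonneg_left hdρ (mul_nonneg (by positivity) hc0)
    have h5 : (4 * D ^ 2 * c) * (4 * D ^ 3) = 16 * (D ^ 5 * c) := by ring
    have h6 : D ^ 5 * c ≤ D ^ 6 * c :=
      mul_le_mul_of_nonneg_right (pow_le_pow_right₀ hD (by norm_num)) hc0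
    have h7 : 0 ≤ D ^ 6 * c := mul_nonneg (by positivity) hc0
    calc ρ ^ 2 * n = ρ * (ρ * n) := by ring
      _ ≤ 16 * (D ^ 5 * c) := h1.trans (h2.trans (h3.le.trans (h4.trans h5.le)))
      _ ≤ 48 * D ^ 6 * c := by linarith only [h6, h7]
  · intro i hi
    rw [Finset.mem_filter] at hi
    obtain ⟨hiFs, hfi⟩ := hi
    have hiF0 := hFsF hiFs
    have hip := hi0 i hiF0
    have hgi := hg i hiFs
    have h1 := hS.freq _ hgi
    have h2 := hS.pos _ hgi
    simp only at h1 h2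
    rw [← hQ] at h2
    have hbz : (b : ℤ) = ((g i : ℤ) * a0) % (d : ℤ) := by
      rw [← hfi, hf]
      simp only
      exact Int.toNat_of_nonneg (Int.emod_nonneg _ hdz.ne')
    have hq2 : (g i : ℝ) * a0 = d * (((g i : ℤ) * a0 / (d : ℤ) : ℤ) : ℝ) + b := by
      have h3 := Int.mul_ediv_add_emod ((g i : ℤ) * a0) (d : ℤ)
      rw [← hbz] at h3
      have h4 : ((((d : ℤ) * ((g i : ℤ) * a0 / (d : ℤ)) + (b : ℤ) : ℤ)) : ℝ) = (((g i : ℤ) * a0 : ℤ) : ℝ) := by
        rw [h3]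
      push_cast at h4
      linarith only [h4]
    set q2 : ℤ := (g i : ℤ) * a0 / (d : ℤ) with hq2d
    have hkey : α i - b / d - θ * K * Q / i =
        (-((g i : ℝ) * w - α i) + θ * ((i : ℝ) * g i - K * Q) / i) + (q2 : ℤ) := by
      rw [hw]
      have h5 : (b : ℝ) = (g i : ℝ) * a0 - d * q2 := by linarith only [hq2]
      rw [h5]
      field_simp
      ring
    rw [hkey, nz_add_int]
    have h6 : nz (-((g i : ℝ) * w - α i) + θ * ((i : ℝ) * g i - K * Q) / i) ≤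
        D * η + |θ| * (D * Q) / i := by
      refine (nz_add _ _).trans (add_le_add ?_ ?_)
      · rw [nz_neg]
        exact h1
      · refine (nz_le_abs _).trans ?_
        rw [abs_div, abs_mul, abs_of_pos hip]
        apply div_le_div_of_nonneg_right _ hip.le
        exact mul_le_mul_of_nonneg_left h2 (abs_nonneg _)
    have h7 : |θ| * (D * Q) / i * ρ ≤ 4 * D ^ 4 * η := by
      rw [div_mul_eq_mul_div, div_le_iff₀ hip]
      have h8 : |θ| * (D * Q) * ρ = D * (|θ| * (ρ * Q)) := by ring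
      rw [h8]
      calc D * (|θ| * (ρ * Q)) ≤ D * (4 * D ^ 2 * η * n) := mul_le_mul_of_nonneg_left hθQ hD0.le
        _ = 4 * D ^ 3 * η * n := by ring
        _ ≤ 4 * D ^ 3 * η * (D * i) := mul_le_mul_of_nonneg_left (hiD i hiF0) (by positivity)
        _ = 4 * D ^ 4 * η * i := by ring
    have h9 := mul_le_mul_of_nonneg_right h6 hρ.le
    have h10 : D * η * ρ ≤ D ^ 6 * η := by
      have h11 : D * η * ρ ≤ D * η * 1 := mul_le_mul_of_nonneg_left hρ1 (by positivity)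
      have h12 : D * η ≤ D ^ 6 * η :=
        mul_le_mul_of_nonneg_right (le_self_pow₀ hD (by norm_num)) hη
      linarith only [h11, h12]
    have h13 : D ^ 4 * η ≤ D ^ 6 * η :=
      mul_le_mul_of_nonneg_right (pow_le_pow_right₀ hD (by norm_num)) hη
    have h14 : 0 ≤ D ^ 6 * η := by positivity
    rw [add_mul] at h9
    linarith only [h7, h9, h10, h13, h14]

end Pool.Agent.H74.MDX
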